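import Mathlib

/-!
# Covering subgroups of soluble groups of bounded derived length

`H` is a normal subgroup of index `n` of a finite group `A` and `U ≤ H` is an `A`-covering subgroup
of `H`.  If `H` is soluble of derived length at most `l` (more generally if the `l`-th derived
subgroup of `H` lies in `U`), then the index of `U` in `H` is at most `n ^ (2 ^ l - 1)`.
The general form is for a series of normal subgroups of `A` such that in every factor the image of
`U` has at most `b` conjugates; the bound is then `(n b) ^ (2 ^ l - 1)`.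
-/

set_option autoImplicit false

open Subgroup
open scoped Nat commutatorElement

namespace Pool.Agent.Results.MP_169bcc_al.BoundedDerivedLength

variable {A : Type} [Group A]

theorem rel_ne [Finite A] (H K : Subgroup A) : H.relIndex K ≠ 0 :=
  Subgroup.index_ne_zero_of_finite (H := H.subgroupOf K)

/-- Counting. -/
theorem count [Finite A] (H V : Subgroup A) (hV : V ≤ H)
    (hc : ∀ h ∈ H, ∃ a : A, a * h * a⁻¹ ∈ V) :
    V.relIndex H ≤ (normalizer (V : Set A)).index := by
  classical
  set N := normalizer (V : Set A) with hN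
  let ph : (A ⧸ N) × V → A := fun p => p.1.out * p.2 * p.1.out⁻¹
  have hsub : (H : Set A) ⊆ Set.range ph := by
    intro h hh
    obtain ⟨a, ha⟩ := hc h hh
    have hout : (QuotientGroup.mk a⁻¹ : A ⧸ N).out⁻¹ * a⁻¹ ∈ N := by
      rw [← QuotientGroup.eq]
      exact Quotient.out_eq' _
    set q := (QuotientGroup.mk a⁻¹ : A ⧸ N).out with hq
    have hv : (q⁻¹ * a⁻¹) * (a * h * a⁻¹) * (q⁻¹ * a⁻¹)⁻¹ ∈ V :=
      (mem_normalizer_iff.1 hout _).1 ha
    refine ⟨(QuotientGroup.mk a⁻¹, ⟨_, hv⟩), ?_⟩
    simp only [ph]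
    rw [← hq]
    group
  have h1 : Nat.card H ≤ Nat.card ((A ⧸ N) × V) := by
    calc Nat.card H ≤ Nat.card (Set.range ph) := Nat.card_mono (Set.toFinite _) hsub
      _ ≤ _ := Finite.card_range_le ph
  rw [Nat.card_prod] at h1
  have h2 : Nat.card V * V.relIndex H = Nat.card H := by
    rw [← relIndex_bot_left, ← relIndex_bot_left, relIndex_mul_relIndex _ _ _ bot_le hV]
  have h3 : Nat.card V * V.relIndex H ≤ Nat.card V * N.index := by
    rw [h2, mul_comm]
    exact h1
  exact Nat.le_of_mul_le_mul_left h3 Nat.card_pos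

/-- If `N ≤ K M` with `M` normal then `|N : N ∩ K| ≤ |M : M ∩ K|`. -/
theorem relIndex_sup [Finite A] (K M N : Subgroup A) (hM : M.Normal) (hMN : M ≤ N)
    (hN : N ≤ K ⊔ M) : K.relIndex N ≤ K.relIndex M := by
  have hs : Function.Surjective (quotientSubgroupOfEmbeddingOfLE K hMN) := by
    intro y
    obtain ⟨x, rfl⟩ := QuotientGroup.mk_surjective y
    obtain ⟨u, hu, m, hm, hx⟩ := (mem_sup_of_normal_right (s := K) (t := M)).1 (hN x.2)
    have hm' : u * m * u⁻¹ ∈ M := hM.conj_mem m hm u
    refine ⟨QuotientGroup.mk ⟨u * m * u⁻¹, hm'⟩, ?_⟩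
    have : quotientSubgroupOfEmbeddingOfLE K hMN (QuotientGroup.mk ⟨u * m * u⁻¹, hm'⟩) =
        QuotientGroup.mk (⟨u * m * u⁻¹, hMN hm'⟩ : N) := rfl
    rw [this]
    rw [QuotientGroup.eq]
    rw [mem_subgroupOf]
    have h5 : ((⟨u * m * u⁻¹, hMN hm'⟩ : N)⁻¹ * x : N) = (u * m * u⁻¹)⁻¹ * (x : A) := rfl
    have h6 : (u * m * u⁻¹)⁻¹ * (x : A) = u := by
      rw [← hx]; group
    rw [show (((⟨u * m * u⁻¹, hMN hm'⟩ : N)⁻¹ * x : N) : A) = u from h6]
    exact hu
  show Nat.card (N ⧸ K.subgroupOf N) ≤ Nat.card (M ⧸ K.subgroupOf M)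
  exact Nat.card_le_card_of_surjective _ hs

theorem main [Finite A] (b : ℕ) (H : Subgroup A) : ∀ (l : ℕ) (U : Subgroup A)
    (M : ℕ → Subgroup A), M 0 = H → (∀ i, (M i).Normal) → (∀ i, M (i + 1) ≤ M i) → M l ≤ U →
    U ≤ H → (∀ h ∈ H, ∃ a : A, a * h * a⁻¹ ∈ U) →
    (∀ i < l, (normalizer (((U ⊓ M i) ⊔ M (i + 1) : Subgroup A) : Set A)).relIndex (M i) ≤ b) →
    U.relIndex H ≤ (H.index * b) ^ (2 ^ l - 1) := by
  intro l
  induction l with
  | zero =>
    intro U M h0 _ _ hl hU _ _
    have h' : U = H := le_antisymm hU (h0 ▸ hl)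
    rw [h', relIndex_self]
    simp
  | succ l ih =>
    intro U M h0 hn ha hl hU hc hb
    have hanti : Antitone M := antitone_nat_of_succ_le ha
    have hnl := hn l
    set U' := U ⊔ M l with hU'
    have hMH : ∀ i, M i ≤ H := fun i => h0 ▸ hanti (Nat.zero_le i)
    have hU'H : U' ≤ H := sup_le hU (hMH l)
    have h1 : U'.relIndex H ≤ (H.index * b) ^ (2 ^ l - 1) := by
      apply ih U' M h0 hn ha le_sup_right hU'H
      · intro h hh
        obtain ⟨a, h⟩ := hc h hh
        exact ⟨a, (le_sup_left : U ≤ U') h⟩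
      · intro i hi
        have he : (U' ⊓ M i) ⊔ M (i + 1) = (U ⊓ M i) ⊔ M (i + 1) := by
          apply le_antisymm
          · refine sup_le ?_ le_sup_right
            rintro x ⟨hx1, hx2⟩
            obtain ⟨u, hu, m, hm, hx⟩ := (mem_sup_of_normal_right (s := U) (t := M l)).1 hx1
            have hm1 : m ∈ M (i + 1) := hanti (by omega) hm
            have hm2 : m ∈ M i := ha i hm1
            have hu2 : u ∈ M i := by
              have : u = x * m⁻¹ := by rw [← hx]; group
              rw [this]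
              exact (M i).mul_mem hx2 ((M i).inv_mem hm2)
            rw [← hx]
            exact ((U ⊓ M i) ⊔ M (i + 1)).mul_mem
              ((le_sup_left : U ⊓ M i ≤ _) ⟨hu, hu2⟩) ((le_sup_right : M (i + 1) ≤ _) hm1)
          · exact sup_le_sup_right (inf_le_inf_right _ le_sup_left) _
        rw [he]
        exact hb i (by omega)
    have h2 : U'.index ≤ (H.index * b) ^ (2 ^ l - 1) * H.index := by
      rw [← relIndex_mul_index hU'H]
      exact Nat.mul_le_mul h1 le_rfl
    set V := U ⊓ M l with hV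
    have hVeq : (U ⊓ M l) ⊔ M (l + 1) = V := sup_eq_left.2 (le_inf hl (ha l))
    have hbV : (normalizer (V : Set A)).relIndex (M l) ≤ b := by
      have := hb l (by omega)
      rwa [hVeq] at this
    have hUn : U ≤ normalizer (V : Set A) := by
      intro u hu
      rw [mem_normalizer_iff]
      intro x
      constructor
      · rintro ⟨hx1, hx2⟩
        exact ⟨U.mul_mem (U.mul_mem hu hx1) (U.inv_mem hu), hnl.conj_mem x hx2 u⟩
      · rintro ⟨hx1, hx2⟩
        refine ⟨?_, ?_⟩
        · have := U.mul_mem (U.mul_mem (U.inv_mem hu) hx1) hu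
          simpa [mul_assoc] using this
        · have := hnl.conj_mem _ hx2 u⁻¹
          simpa [mul_assoc] using this
    have h4 : (normalizer (V : Set A)).index ≤ b * ((H.index * b) ^ (2 ^ l - 1) * H.index) := by
      calc (normalizer (V : Set A)).index ≤ (normalizer (V : Set A) ⊓ U').index :=
            index_antitone inf_le_left
        _ = (normalizer (V : Set A) ⊓ U').relIndex U' * U'.index :=
            (relIndex_mul_index inf_le_right).symm
        _ = (normalizer (V : Set A)).relIndex U' * U'.index := by rw [inf_relIndex_right]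
        _ ≤ b * ((H.index * b) ^ (2 ^ l - 1) * H.index) := by
            refine Nat.mul_le_mul ((relIndex_sup _ (M l) U' hnl le_sup_right ?_).trans hbV) h2
            exact sup_le_sup_right hUn _
    have h5 : V.relIndex (M l) ≤ b * ((H.index * b) ^ (2 ^ l - 1) * H.index) := by
      refine (count (M l) V inf_le_right ?_).trans h4
      intro h hh
      obtain ⟨a, h'⟩ := hc h (hMH l hh)
      exact ⟨a, h', hnl.conj_mem h hh a⟩
    have h6 : U.relIndex U' ≤ b * ((H.index * b) ^ (2 ^ l - 1) * H.index) := by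
      refine (relIndex_sup U (M l) U' hnl le_sup_right le_rfl).trans ?_
      rw [← inf_relIndex_right]
      exact h5
    have h8 : 2 ^ (l + 1) - 1 = (2 ^ l - 1) + (2 ^ l - 1) + 1 := by
      have : 0 < 2 ^ l := Nat.two_pow_pos l
      rw [pow_succ]
      omega
    calc U.relIndex H = U.relIndex U' * U'.relIndex H :=
          (relIndex_mul_relIndex _ _ _ le_sup_left hU'H).symm
      _ ≤ (b * ((H.index * b) ^ (2 ^ l - 1) * H.index)) * (H.index * b) ^ (2 ^ l - 1) :=
          Nat.mul_le_mul h6 h1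
      _ = (H.index * b) ^ (2 ^ (l + 1) - 1) := by
          rw [h8, pow_add, pow_add, pow_one]
          ring

theorem soluble [Finite A] (H U : Subgroup A) (l : ℕ) (hH : H.Normal) (hU : U ≤ H)
    (hc : ∀ h ∈ H, ∃ a : A, a * h * a⁻¹ ∈ U)
    (hl : (derivedSeries H l).map H.subtype ≤ U) :
    U.relIndex H ≤ H.index ^ (2 ^ l - 1) := by
  rw [← mul_one H.index]
  refine main 1 H l U (fun i => (derivedSeries H i).map H.subtype) ?_ ?_ ?_ hl hU hc ?_
  · show (derivedSeries H 0).map H.subtype = H
    rw [derivedSeries_zero, ← MonoidHom.range_eq_map, range_subtype]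
  · intro i
    exact ConjAct.normal_of_characteristic_of_normal
  · intro i
    exact map_mono (derivedSeries_antitone H (Nat.le_succ i))
  · intro i _
    refine (relIndex_eq_one.2 ?_).le
    set D : Subgroup A := (derivedSeries H i).map H.subtype with hD
    set E : Subgroup A := (derivedSeries H (i + 1)).map H.subtype with hE
    have hED : E ≤ D := map_mono (derivedSeries_antitone H (Nat.le_succ i))
    have hWD : (U ⊓ D) ⊔ E ≤ D := sup_le inf_le_right hED
    have key : ∀ x ∈ D, ∀ w ∈ (U ⊓ D) ⊔ E, x * w * x⁻¹ ∈ (U ⊓ D) ⊔ E := by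
      intro x hx w hw
      obtain ⟨x', hx', rfl⟩ := hx
      obtain ⟨w', hw', hww⟩ := hWD hw
      have h1 : ⁅x', w'⁆ ∈ derivedSeries H (i + 1) := by
        rw [derivedSeries_succ]
        exact commutator_mem_commutator hx' hw'
      have h2 : (x' : A) * w * (x' : A)⁻¹ * w⁻¹ ∈ E := by
        refine ⟨⁅x', w'⁆, h1, ?_⟩
        rw [← hww]
        rfl
      have h3 := ((U ⊓ D) ⊔ E).mul_mem ((le_sup_right : E ≤ (U ⊓ D) ⊔ E) h2) hw
      simpa [mul_assoc] using h3
    intro x hx
    rw [mem_normalizer_iff]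
    intro w
    refine ⟨fun hw => key x hx w hw, fun hw => ?_⟩
    have := key x⁻¹ (D.inv_mem hx) _ hw
    simpa [mul_assoc] using this

/-- For every finite group `A`, every normal subgroup `H` of index `n` and every `A`-covering
subgroup `U` of `H`:
(1) if `H = M 0 ≥ M 1 ≥ ... ≥ M l` are normal subgroups of `A` with `M l ≤ U` such that each
`(U ∩ M i) M (i+1)` has at most `b` conjugates under `M i`, then `|H:U| ≤ (n b) ^ (2 ^ l - 1)`;
(2) if `H` is soluble of derived length at most `l`, or only the `l`-th derived subgroup of `H`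
lies in `U`, then `|H:U| ≤ n ^ (2 ^ l - 1)`. -/
theorem result :
    (∀ (A : Type) [Group A] [Finite A] (H U : Subgroup A) (b l : ℕ) (M : ℕ → Subgroup A),
      U ≤ H → (∀ h ∈ H, ∃ a : A, a * h * a⁻¹ ∈ U) →
      M 0 = H → (∀ i, (M i).Normal) → (∀ i, M (i + 1) ≤ M i) → M l ≤ U →
      (∀ i < l, (normalizer (((U ⊓ M i) ⊔ M (i + 1) : Subgroup A) : Set A)).relIndex (M i) ≤ b) →
      (U.subgroupOf H).index ≤ (H.index * b) ^ (2 ^ l - 1)) ∧
    (∀ (A : Type) [Group A] [Finite A] (H U : Subgroup A) (l : ℕ), H.Normal → U ≤ H →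
      (∀ h ∈ H, ∃ a : A, a * h * a⁻¹ ∈ U) → (derivedSeries H l).map H.subtype ≤ U →
      (U.subgroupOf H).index ≤ H.index ^ (2 ^ l - 1)) :=
  ⟨fun _ _ _ H U b l M hU hc h0 hn ha hl hb => main b H l U M h0 hn ha hl hU hc hb,
    fun _ _ _ H U l hH hU hc hl => soluble H U l hH hU hc hl⟩

end Pool.Agent.Results.MP_169bcc_al.BoundedDerivedLength
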