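import Mathlib

/-!
# Covering subgroups reached by short chains with few conjugates

`H` is a normal subgroup of index `n` of a finite group `A` and `U ≤ H` is an `A`-covering subgroup
of `H`.  If `U` can be joined to `H` by a chain of length `d` in which every member has at most `b`
conjugates under the next one (for instance a subnormal chain, `b = 1`), then the index of `U` in
`H` is at most `(n b) ^ d`.
-/

set_option autoImplicit false

open Subgroup

namespace Pool.Agent.Results.MP_169bcc_al.SubnormalChains

/-- `Near b d U V`: there is a chain `U = V_d ≤ ... ≤ V_1 ≤ V_0 = V` such that every `V_(i+1)` has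
at most `b` conjugates under `V_i`. -/
def Near {A : Type} [Group A] (b : ℕ) : ℕ → Subgroup A → Subgroup A → Prop
  | 0, U, V => U = V
  | d + 1, U, V => ∃ W : Subgroup A, W ≤ V ∧ (normalizer (W : Set A)).relIndex V ≤ b ∧ Near b d U W

variable {A : Type} [Group A]

theorem near_le {b d : ℕ} : ∀ {U V : Subgroup A}, Near b d U V → U ≤ V := by
  induction d with
  | zero => intro U V h; exact le_of_eq h
  | succ d ih =>
    rintro U V ⟨W, hW, _, h⟩
    exact (ih h).trans hW

theorem rel_ne [Finite A] (H K : Subgroup A) : H.relIndex K ≠ 0 :=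
  Subgroup.index_ne_zero_of_finite (H := H.subgroupOf K)

/-- Counting. -/
theorem count [Finite A] (H V : Subgroup A) (hV : V ≤ H)
    (hc : ∀ h ∈ H, ∃ a : A, a * h * a⁻¹ ∈ V) :
    V.relIndex H ≤ (normalizer (V : Set A)).index := by
  classical
  set N := normalizer (V : Set A) with hN
  let ph : (A ⧸ N) × V → A := fun p => p.1.out * p.2 * p.1.out⁻¹
  have hsub : (H : Set A) ⊆ Set.range ph := by
    intro h hh
    obtain ⟨a, ha⟩ := hc h hh
    have hout : (QuotientGroup.mk a⁻¹ : A ⧸ N).out⁻¹ * a⁻¹ ∈ N := by
      rw [← QuotientGroup.eq]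
      exact Quotient.out_eq' _
    set q := (QuotientGroup.mk a⁻¹ : A ⧸ N).out with hq
    have hv : (q⁻¹ * a⁻¹) * (a * h * a⁻¹) * (q⁻¹ * a⁻¹)⁻¹ ∈ V :=
      (mem_normalizer_iff.1 hout _).1 ha
    refine ⟨(QuotientGroup.mk a⁻¹, ⟨_, hv⟩), ?_⟩
    simp only [ph]
    rw [← hq]
    group
  have h1 : Nat.card H ≤ Nat.card ((A ⧸ N) × V) := by
    calc Nat.card H ≤ Nat.card (Set.range ph) := Nat.card_mono (Set.toFinite _) hsub
      _ ≤ _ := Finite.card_range_le ph
  rw [Nat.card_prod] at h1
  have h2 : Nat.card V * V.relIndex H = Nat.card H := by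
    rw [← relIndex_bot_left, ← relIndex_bot_left, relIndex_mul_relIndex _ _ _ bot_le hV]
  have h3 : Nat.card V * V.relIndex H ≤ Nat.card V * N.index := by
    rw [h2, mul_comm]
    exact h1
  exact Nat.le_of_mul_le_mul_left h3 Nat.card_pos

theorem main [Finite A] (b : ℕ) (H U : Subgroup A)
    (hc : ∀ h ∈ H, ∃ a : A, a * h * a⁻¹ ∈ U) : ∀ (d c : ℕ) (V : Subgroup A), V ≤ H →
    V.relIndex H ≤ c → Near b d U V → U.relIndex H ≤ c * (H.index * b) ^ d := by
  intro d
  induction d with
  | zero =>
    intro c V _ h1 h
    have h' : U = V := h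
    rw [h', pow_zero, mul_one]
    exact h1
  | succ d ih =>
    intro c V hV h1 h
    obtain ⟨W, hW, hb, hUW⟩ := h
    have hUleW := near_le hUW
    have hcW : ∀ h ∈ H, ∃ a : A, a * h * a⁻¹ ∈ W := fun h hh => by
      obtain ⟨a, ha⟩ := hc h hh
      exact ⟨a, hUleW ha⟩
    have h2 : W.relIndex H ≤ c * (H.index * b) := by
      refine (count H W (hW.trans hV) hcW).trans ?_
      calc (normalizer (W : Set A)).index ≤ (normalizer (W : Set A) ⊓ V).index :=
            index_antitone inf_le_left
        _ = (normalizer (W : Set A) ⊓ V).relIndex V * V.index :=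
            (relIndex_mul_index inf_le_right).symm
        _ = (normalizer (W : Set A)).relIndex V * (V.relIndex H * H.index) := by
            rw [inf_relIndex_right, relIndex_mul_index hV]
        _ ≤ b * (c * H.index) := Nat.mul_le_mul hb (Nat.mul_le_mul h1 le_rfl)
        _ = c * (H.index * b) := by ring
    have h3 := ih (c * (H.index * b)) W (hW.trans hV) h2 hUW
    calc U.relIndex H ≤ c * (H.index * b) * (H.index * b) ^ d := h3
      _ = c * (H.index * b) ^ (d + 1) := by rw [pow_succ]; ring

/-- For every finite group `A`, every normal subgroup `H` of index `n` and every `A`-covering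
subgroup `U` of `H`: if `U` is joined to `H` by a chain of length `d` in which every member has at
most `b` conjugates under the next one, then `|H:U| ≤ (n b) ^ d`. -/
theorem result (A : Type) [Group A] [Finite A] (H U : Subgroup A) (b d : ℕ) (_hH : H.Normal)
    (hc : ∀ h ∈ H, ∃ a : A, a * h * a⁻¹ ∈ U) (hd : Near b d U H) :
    (U.subgroupOf H).index ≤ (H.index * b) ^ d := by
  have h := main b H U hc d 1 H le_rfl (by rw [relIndex_self]) hd
  rw [one_mul] at h
  exact h

end Pool.Agent.Results.MP_169bcc_al.SubnormalChains
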